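import Pool.Agent.H174.GP.StG
import Pool.Agent.H174.GP.StC

/-! Project GP: Harris inequality and crude bounds for the Gaussian process. -/

set_option autoImplicit false

open MeasureTheory ProbabilityTheory Finset Filter Topology

namespace Pool.Agent.H962.GP174

open Pool.Agent.H174.GP

/-- the event -/
def EE (G : ℝ → ℝ) (L : ℕ) (X : Finset ℕ) : Set (ℕ → ℝ) :=
  {ω | ∀ x ∈ X, 0 ≤ Ch (fun j => G (ω j)) L x}

theorem ch_meas (L x : ℕ) : Measurable fun z : ℕ → ℝ => Ch z L x := by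
  unfold Ch Cs
  exact Finset.measurable_fun_sum _ fun j _ => ((measurable_pi_apply j).div_const _).const_mul _

theorem ev_meas (L : ℕ) (X : Finset ℕ) : MeasurableSet {z : ℕ → ℝ | ∀ x ∈ X, 0 ≤ Ch z L x} := by
  have e : {z : ℕ → ℝ | ∀ x ∈ X, 0 ≤ Ch z L x} = ⋂ x ∈ X, {z : ℕ → ℝ | 0 ≤ Ch z L x} := by
    ext z
    rw [Set.mem_iInter₂]
    rfl
  rw [e]
  exact Finset.measurableSet_biInter _ fun x _ => measurableSet_le measurable_const (ch_meas L x)

theorem T_meas {G : ℝ → ℝ} (hG : Measurable G) :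
    Measurable fun (ω : ℕ → ℝ) (j : ℕ) => G (ω j) :=
  measurable_pi_iff.2 fun j => hG.comp (measurable_pi_apply j)

theorem EE_meas {G : ℝ → ℝ} (hG : Measurable G) (L : ℕ) (X : Finset ℕ) :
    MeasurableSet (EE G L X) := T_meas hG (ev_meas L X)

theorem GA_eq {G : ℝ → ℝ} (hG : Measurable G)
    (hmap : Measure.map (fun (ω : ℕ → ℝ) (j : ℕ) => G (ω j)) PP = GA) (L : ℕ) (X : Finset ℕ) :
    GA.real {z | ∀ x ∈ X, 0 ≤ Ch z L x} = PP.real (EE G L X) := by
  rw [← hmap, measureReal_def, Measure.map_apply (T_meas hG) (ev_meas L X), measureReal_def]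
  rfl

theorem EE_dep (G : ℝ → ℝ) (L : ℕ) (X : Finset ℕ) : DepOn (Finset.Icc 1 L) (EE G L X) := by
  intro ω ω' h hω x hx
  have h1 := hω x hx
  have e : Ch (fun j => G (ω' j)) L x = Ch (fun j => G (ω j)) L x := by
    unfold Ch Cs
    refine Finset.sum_congr rfl fun j hj => ?_
    show ((min j x : ℕ) : ℝ) * (G (ω' j) / (j : ℝ)) = ((min j x : ℕ) : ℝ) * (G (ω j) / (j : ℝ))
    rw [h j hj]
  rw [e]
  exact h1

theorem EE_upper {G : ℝ → ℝ} (hG : Monotone G) (L : ℕ) (X : Finset ℕ) :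
    IsUpperSet (EE G L X) := by
  intro ω ω' h hω x hx
  have h1 := hω x hx
  refine h1.trans ?_
  unfold Ch Cs
  refine Finset.sum_le_sum fun j _ => ?_
  exact mul_le_mul_of_nonneg_left (div_le_div_of_nonneg_right (hG (h j)) (Nat.cast_nonneg j))
    (Nat.cast_nonneg _)

theorem gp_gstep (h1 : S_Gmap) (h2 : S_GPP) (h3 : S_AdmG) (h4 : S_crude) (h5 : S_harrisN)
    (_h6 : S_L3) : Pool.Agent.H174.GP.S_gstep := by
  obtain ⟨G, g1, g2, g3, g4⟩ := h1
  have hmap := h2 G g3 g4
  obtain ⟨κ, hκ, hAdm⟩ := h3 G g1 g2 g3 g4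
  obtain ⟨c, hc, κ1, hκ1, δ0, hδ0, hcr⟩ := h4 1 1 κ one_pos one_pos hκ
  have key : ∀ a L : ℕ, 1 ≤ a → a ≤ L →
      c * (a : ℝ) ^ (-κ1) ≤ PP.real (EE G L (Finset.Icc 1 a)) := by
    intro a L ha haL
    have h := hcr (fun j x => G x / (j : ℝ)) 1 L 1 a (hAdm L) le_rfl ha haL
    have ha0 : (0 : ℝ) ≤ a := Nat.cast_nonneg a
    rw [Nat.cast_one, one_div, Real.inv_rpow ha0, ← Real.rpow_neg ha0] at h
    refine h.trans (measureReal_mono ?_)
    intro ω hω x hx
    have h7 := hω x hx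
    have h8 : (0 : ℝ) ≤ δ0 * 1 * Real.sqrt x := by positivity
    exact h8.trans h7
  refine ⟨c, hc, κ1, hκ1, fun a L ha haL => ?_, fun L hL => ?_⟩
  · have h := h5 (Finset.Icc 1 L) {0, 1}
      (fun i => if i = 0 then EE G L (Finset.Icc 1 a) else EE G L (Finset.Icc a L))
      (fun i _ => by
        show MeasurableSet (if i = 0 then _ else _)
        split_ifs
        · exact EE_meas g3 _ _
        · exact EE_meas g3 _ _)
      (fun i _ => by
        show DepOn _ (if i = 0 then _ else _)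
        split_ifs
        · exact EE_dep _ _ _
        · exact EE_dep _ _ _)
      (fun i _ => by
        show IsUpperSet (if i = 0 then _ else _)
        split_ifs
        · exact EE_upper g1 _ _
        · exact EE_upper g1 _ _)
    rw [Finset.prod_pair (by norm_num)] at h
    simp only [if_true, one_ne_zero, if_false] at h
    have e : vG L = PP.real (EE G L (Finset.Icc 1 L)) := GA_eq g3 hmap L _
    rw [GA_eq g3 hmap, e]
    refine (mul_le_mul_of_nonneg_right (key a L ha haL) measureReal_nonneg).trans (h.trans ?_)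
    refine measureReal_mono ?_
    intro ω hω x hx
    have m0 : ω ∈ EE G L (Finset.Icc 1 a) := by
      have := Set.mem_iInter₂.1 hω 0 (by simp)
      simpa using this
    have m1 : ω ∈ EE G L (Finset.Icc a L) := by
      have := Set.mem_iInter₂.1 hω 1 (by simp)
      simpa using this
    rw [Finset.mem_Icc] at hx
    rcases le_total x a with h9 | h9
    · exact m0 x (Finset.mem_Icc.2 ⟨hx.1, h9⟩)
    · exact m1 x (Finset.mem_Icc.2 ⟨h9, hx.2⟩)
  · have e : vG L = PP.real (EE G L (Finset.Icc 1 L)) := GA_eq g3 hmap L _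
    rw [e]
    exact key L L hL le_rfl

end Pool.Agent.H962.GP174
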